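import Mathlib
import Pool.Agent.Lib.MP_d5741c_al.Univ

/-!
Two central division algebras of degree 3 which are split by the same extensions of transcendence
degree at most one, but whose Brauer classes generate different subgroups.
-/

set_option autoImplicit false

open scoped TensorProduct

namespace Pool.Agent.Results.MP_d5741c_al.TrdegOneSplitting

universe u

/-- The extension `L` of `F` splits the central simple `F`-algebra `A` of degree three. -/
def Splits (F A L : Type*) [Field F] [Ring A] [Algebra F A] [Field L] [Algebra F L] : Prop :=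
  Nonempty ((L ⊗[F] A) ≃ₐ[L] Matrix (Fin 3) (Fin 3) L)

/-- There are a field `F` of characteristic zero, containing a primitive third root of unity, and
central division `F`-algebras `A` and `B` of degree three (dimension nine), which are split by the
same extensions of transcendence degree at most one (in any universe), although some extension
splits `A` but not `B`, some extension splits `B` but not `A`, and `B` is isomorphic neither to `A`
nor to the opposite of `A`. -/
theorem result :
    ∃ (F : Type) (_ : Field F) (A B : Type) (_ : DivisionRing A) (_ : DivisionRing B)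
      (_ : Algebra F A) (_ : Algebra F B),
      CharZero F ∧ (∃ ω : F, IsPrimitiveRoot ω 3) ∧
      Algebra.IsCentral F A ∧ Algebra.IsCentral F B ∧
      Module.finrank F A = 9 ∧ Module.finrank F B = 9 ∧
      (∀ (L : Type u) [Field L] [Algebra F L], Algebra.trdeg F L ≤ 1 →
        (Splits F A L ↔ Splits F B L)) ∧
      (∃ (L : Type) (_ : Field L) (_ : Algebra F L), Splits F A L ∧ ¬ Splits F B L) ∧
      (∃ (L : Type) (_ : Field L) (_ : Algebra F L), Splits F B L ∧ ¬ Splits F A L) ∧
      ¬ Nonempty (B ≃ₐ[F] A) ∧ ¬ Nonempty (B ≃ₐ[F] Aᵐᵒᵖ) := by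
  obtain ⟨K, _, hK, ω, α, a, b, hω, hP, hec⟩ := Pool.Agent.D5741.exists_ec
  have h3 : (3 : K) ≠ 0 := by norm_num
  have hω1 : ω ≠ 1 := by
    rintro rfl
    apply h3
    linear_combination hω
  have hω3 : ω ^ 3 = 1 := by linear_combination (ω - 1) * hω
  have hprim : IsPrimitiveRoot ω 3 := by
    have h4 := orderOf_eq_prime (p := 3) hω3 hω1
    rw [← h4]
    exact IsPrimitiveRoot.orderOf ω
  obtain ⟨D₁, _, _, hc₁, hf₁, hs₁, hu₁⟩ :=
    Pool.Agent.D5741.exists_cyclic_univ.{u} K ω α a hω hP.1 hP.2.1 hP.not_isNm_left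
  obtain ⟨D₂, _, _, hc₂, hf₂, hs₂, hu₂⟩ :=
    Pool.Agent.D5741.exists_cyclic_univ.{u} K ω α b hω hP.1 hP.2.2.1 hP.symm.not_isNm_left
  obtain ⟨L, _, _, hLa, hLb⟩ := Pool.Agent.D5741.exists_field_left K ω α a b hω hP
  obtain ⟨L', _, _, hLb', hLa'⟩ := Pool.Agent.D5741.exists_field_left K ω α b a hω hP.symm
  rw [← hs₁] at hLa hLa'
  rw [← hs₂] at hLb hLb'
  refine ⟨K, inferInstance, D₁, D₂, inferInstance, inferInstance, inferInstance, inferInstance,
    hK, ⟨ω, hprim⟩, hc₁, hc₂, hf₁, hf₂,
    ?_, ⟨L, inferInstance, inferInstance, hLa, hLb⟩, ⟨L', inferInstance, inferInstance, hLb', hLa'⟩,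
    ?_, ?_⟩
  · intro E _ _ hE
    unfold Splits
    rw [hu₁, hu₂]
    constructor
    · exact Pool.Agent.D5741.main_theorem_univ K ω α a b hω hP (fun K' _ _ => hec K') E hE
    · exact Pool.Agent.D5741.main_theorem_univ K ω α b a hω hP.symm
        (fun K' _ _ h => hec K' h.symm) E hE
  · rintro ⟨e⟩
    exact hLa' (Pool.Agent.D5741.splits_congr e L' hLb')
  · rintro ⟨e⟩
    have h1 := Pool.Agent.D5741.splits_op L' (Pool.Agent.D5741.splits_congr e L' hLb')
    exact hLa' (Pool.Agent.D5741.splits_congr (AlgEquiv.opOp K D₁).symm L' h1)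

end Pool.Agent.Results.MP_d5741c_al.TrdegOneSplitting
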